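import Pool.Agent.W734.TWB.Stms

/-!
Project TWB (helper734): DY, Dyson type lemma for pairs.
-/

set_option autoImplicit false

noncomputable section

namespace Pool.Agent.W179.TWB

open Pool.Agent.W734.TWB
open MeasureTheory Set Filter Metric
open scoped Pointwise

/-- basis vector -/
abbrev eb (k : Fin 3) : E3 := EuclideanSpace.single k (1 : ℝ)

/-- cut-off functions at all scales -/
theorem exists_cut : ∃ C : ℝ, 0 ≤ C ∧ ∀ ρ : ℝ, 0 < ρ → ∃ χ : E3 → ℝ, ContDiff ℝ 1 χ ∧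
    (∀ x, 0 ≤ χ x ∧ χ x ≤ 1) ∧ (∀ x, ‖x‖ ≤ ρ → χ x = 1) ∧ (∀ x, 2 * ρ ≤ ‖x‖ → χ x = 0) ∧
    ∀ x, ∑ j : Fin 3, (fderiv ℝ χ x (eb j)) ^ 2 ≤
      (ball (0 : E3) (2 * ρ) \ ball 0 ρ).indicator (fun x => C / ‖x‖ ^ 2) x := by
  let φ : ContDiffBump (0 : E3) := ⟨1, 2, by norm_num, by norm_num⟩
  have hφc : ContDiff ℝ 1 φ := φ.contDiff
  have hφ1 : ∀ x : E3, ‖x‖ ≤ 1 → φ x = 1 := by
    intro x hx
    apply φ.one_of_mem_closedBall
    rw [mem_closedBall, dist_zero_right]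
    exact hx
  have hφ0 : ∀ x : E3, 2 ≤ ‖x‖ → φ x = 0 := by
    intro x hx
    apply φ.zero_of_le_dist
    rw [dist_zero_right]
    exact hx
  have hd : ∀ x : E3, ‖x‖ ≤ 1 ∨ 2 ≤ ‖x‖ → fderiv ℝ φ x = 0 := by
    rintro x (hx | hx)
    · apply IsLocalMax.fderiv_eq_zero
      refine Filter.Eventually.of_forall fun y => ?_
      rw [hφ1 x hx]
      exact φ.le_one
    · apply IsLocalMin.fderiv_eq_zero
      refine Filter.Eventually.of_forall fun y => ?_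
      rw [hφ0 x hx]
      exact φ.nonneg
  have hcont : Continuous (fun x => ∑ j : Fin 3, (fderiv ℝ φ x (eb j)) ^ 2) := by
    have := hφc.continuous_fderiv one_ne_zero
    fun_prop
  obtain ⟨C1, hC1⟩ := (isCompact_closedBall (0 : E3) 2).exists_bound_of_continuousOn
    hcont.continuousOn
  have hC0 : 0 ≤ C1 := (norm_nonneg _).trans (hC1 0 (mem_closedBall_self (by norm_num)))
  have hb : ∀ x : E3, ∑ j : Fin 3, (fderiv ℝ φ x (eb j)) ^ 2 ≤ C1 := by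
    intro x
    by_cases hx : ‖x‖ ≤ 2
    · have := hC1 x (by rw [mem_closedBall, dist_zero_right]; exact hx)
      exact (le_abs_self _).trans this
    · rw [hd x (Or.inr (not_le.1 hx).le)]
      simpa using hC0
  refine ⟨4 * C1, by linarith, fun ρ hρ => ⟨fun x => φ (ρ⁻¹ • x), ?_, ?_, ?_, ?_, ?_⟩⟩
  · exact hφc.comp (contDiff_const_smul _)
  · exact fun x => ⟨φ.nonneg, φ.le_one⟩
  · intro x hx
    apply hφ1
    rw [norm_smul, norm_inv, Real.norm_of_nonneg hρ.le, inv_mul_le_iff₀ hρ, mul_one]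
    exact hx
  · intro x hx
    apply hφ0
    rw [norm_smul, norm_inv, Real.norm_of_nonneg hρ.le, le_inv_mul_iff₀ hρ]
    linarith
  · intro x
    have hder : ∀ v : E3, fderiv ℝ (fun x : E3 => φ (ρ⁻¹ • x)) x v =
        ρ⁻¹ * fderiv ℝ φ (ρ⁻¹ • x) v := by
      intro v
      have h1 : HasFDerivAt (fun x : E3 => ρ⁻¹ • x) (ρ⁻¹ • ContinuousLinearMap.id ℝ E3) x :=
        (ρ⁻¹ • ContinuousLinearMap.id ℝ E3).hasFDerivAt
      have h2 : HasFDerivAt φ (fderiv ℝ φ (ρ⁻¹ • x)) (ρ⁻¹ • x) :=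
        (hφc.differentiable one_ne_zero _).hasFDerivAt
      have h3 := h2.comp x h1
      have h4 : fderiv ℝ (fun x : E3 => φ (ρ⁻¹ • x)) x =
          (fderiv ℝ φ (ρ⁻¹ • x)).comp (ρ⁻¹ • ContinuousLinearMap.id ℝ E3) := h3.fderiv
      rw [h4]
      simp
    simp only [hder]
    have hsum : ∑ j : Fin 3, (ρ⁻¹ * fderiv ℝ φ (ρ⁻¹ • x) (eb j)) ^ 2 =
        (ρ⁻¹) ^ 2 * ∑ j : Fin 3, (fderiv ℝ φ (ρ⁻¹ • x) (eb j)) ^ 2 := by
      rw [Finset.mul_sum]
      exact Finset.sum_congr rfl fun j _ => by ring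
    rw [hsum]
    have hnorm : ‖ρ⁻¹ • x‖ = ρ⁻¹ * ‖x‖ := by
      rw [norm_smul, norm_inv, Real.norm_of_nonneg hρ.le]
    by_cases hx : x ∈ ball (0 : E3) (2 * ρ) \ ball 0 ρ
    · rw [indicator_of_mem hx]
      have hx1 : ‖x‖ < 2 * ρ := by simpa using hx.1
      have hx2 : ρ ≤ ‖x‖ := by simpa using hx.2
      have hxpos : 0 < ‖x‖ := hρ.trans_le hx2
      calc (ρ⁻¹) ^ 2 * ∑ j : Fin 3, (fderiv ℝ φ (ρ⁻¹ • x) (eb j)) ^ 2 ≤ (ρ⁻¹) ^ 2 * C1 := by
            gcongr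
            exact hb _
        _ ≤ 4 * C1 / ‖x‖ ^ 2 := by
            rw [le_div_iff₀ (by positivity), inv_pow]
            have : (ρ ^ 2)⁻¹ * C1 * ‖x‖ ^ 2 = C1 * (‖x‖ ^ 2 / ρ ^ 2) := by field_simp
            rw [this, mul_comm 4 C1]
            apply mul_le_mul_of_nonneg_left _ hC0
            rw [div_le_iff₀ (by positivity)]
            nlinarith
    · rw [indicator_of_notMem hx]
      have : fderiv ℝ φ (ρ⁻¹ • x) = 0 := by
        apply hd
        rw [hnorm]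
        by_cases h1 : ‖x‖ < 2 * ρ
        · left
          have h2 : ‖x‖ < ρ := by
            by_contra h3
            exact hx ⟨by simpa using h1, by simpa using h3⟩
          rw [inv_mul_le_iff₀ hρ, mul_one]
          exact h2.le
        · right
          rw [le_inv_mul_iff₀ hρ]
          linarith
      rw [this]
      simp

theorem cont_g3 {u : E3 → ℂ} (hu : ContDiff ℝ 1 u) : Continuous (g3 u) := by
  unfold g3
  have := hu.continuous_fderiv one_ne_zero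
  fun_prop

theorem g3_nonneg (u : E3 → ℂ) (x : E3) : 0 ≤ g3 u x := by
  unfold g3
  positivity

theorem intOn_ball {f : E3 → ℝ} (hf : Continuous f) (R : ℝ) : IntegrableOn f (ball 0 R) :=
  (hf.continuousOn.integrableOn_compact (isCompact_closedBall 0 R)).mono_set ball_subset_closedBall

theorem intOn_W {W : E3 → ℝ} (hW : AdmW W) {f : E3 → ℝ} (hf : Continuous f) (R : ℝ) :
    IntegrableOn (fun x => W x * f x) (ball 0 R) := by
  obtain ⟨M, hM⟩ := hW.bdd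
  have h1 : IntegrableOn (fun x => |M| * ‖f x‖) (ball (0 : E3) R) :=
    intOn_ball (continuous_const.mul hf.norm) R
  refine Integrable.mono' h1 (hW.meas.mul hf.measurable).aestronglyMeasurable ?_
  refine Filter.Eventually.of_forall fun x => ?_
  rw [norm_mul, Real.norm_of_nonneg (hW.nonneg x)]
  exact mul_le_mul_of_nonneg_right ((hM x).trans (le_abs_self M)) (norm_nonneg _)

theorem intOn_F (hI : S_INV) {u : E3 → ℂ} (hu : Continuous u) (c : ℂ) (R : ℝ) :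
    IntegrableOn (fun x => ‖u x - c‖ ^ 2 / ‖x‖ ^ 2) (ball (0 : E3) R) := by
  have hc : Continuous (fun x => ‖u x - c‖ ^ 2) := by fun_prop
  obtain ⟨M, hM⟩ := (isCompact_closedBall (0 : E3) R).exists_bound_of_continuousOn hc.continuousOn
  have h1 : IntegrableOn (fun x : E3 => M * (‖x‖ ^ 2)⁻¹) (ball 0 R) := (hI.1 R).const_mul M
  refine Integrable.mono' h1 ?_ ?_
  · refine Measurable.aestronglyMeasurable ?_
    have : Measurable (fun x : E3 => ‖x‖ ^ 2) := (by fun_prop : Continuous _).measurable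
    exact hc.measurable.div this
  · refine (ae_restrict_iff' measurableSet_ball).2 (Filter.Eventually.of_forall fun x hx => ?_)
    have h2 := hM x (ball_subset_closedBall hx)
    rw [norm_div, norm_pow, norm_norm, norm_pow, norm_norm, div_eq_mul_inv]
    rw [norm_pow, norm_norm] at h2
    exact mul_le_mul_of_nonneg_right h2 (by positivity)

theorem norm_add_sq_le (a b : ℂ) {t : ℝ} (ht : 0 < t) :
    ‖a + b‖ ^ 2 ≤ (1 + t) * ‖a‖ ^ 2 + (1 + 1 / t) * ‖b‖ ^ 2 := by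
  have h1 : ‖a + b‖ ^ 2 ≤ (‖a‖ + ‖b‖) ^ 2 := pow_le_pow_left₀ (norm_nonneg _) (norm_add_le a b) 2
  have h2 : (‖a‖ + ‖b‖) ^ 2 ≤ (1 + t) * ‖a‖ ^ 2 + (1 + 1 / t) * ‖b‖ ^ 2 := by
    have h3 : (1 + t) * ‖a‖ ^ 2 + (1 + 1 / t) * ‖b‖ ^ 2 - (‖a‖ + ‖b‖) ^ 2 =
        (t * ‖a‖ - ‖b‖) ^ 2 / t := by
      field_simp
      ring
    have h4 : 0 ≤ (t * ‖a‖ - ‖b‖) ^ 2 / t := by positivity
    linarith
  linarith

/-- one scale -/
theorem scale (hB : S_B1C) (hI : S_INV) {W : E3 → ℝ} (hW : AdmW W) {R0 : ℝ} (hR0 : 0 < R0)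
    (hWs : ∀ x, R0 ≤ ‖x‖ → W x = 0) {C t ρ R : ℝ} (ht : 0 < t) (hρ : R0 ≤ ρ)
    (hR : 2 * ρ ≤ R) {χ : E3 → ℝ} (hχ : ContDiff ℝ 1 χ) (hχ01 : ∀ x, 0 ≤ χ x ∧ χ x ≤ 1)
    (hχ1 : ∀ x, ‖x‖ ≤ ρ → χ x = 1) (hχ0 : ∀ x, 2 * ρ ≤ ‖x‖ → χ x = 0)
    (hχd : ∀ x, ∑ j : Fin 3, (fderiv ℝ χ x (eb j)) ^ 2 ≤
      (ball (0 : E3) (2 * ρ) \ ball 0 ρ).indicator (fun x => C / ‖x‖ ^ 2) x)
    {u : E3 → ℂ} (hu : ContDiff ℝ 1 u) {c : ℂ} (hc : c ≠ 0) :
    b1 W * ‖c‖ ^ 2 ≤ (1 + t) * (∫ x in ball (0 : E3) R, (2 * g3 u x + W x * ‖u x‖ ^ 2)) +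
      (2 * (1 + 1 / t) * C) *
        ∫ x in ball (0 : E3) (2 * ρ) \ ball 0 ρ, ‖u x - c‖ ^ 2 / ‖x‖ ^ 2 := by
  have hρ0 : 0 < ρ := hR0.trans_le hρ
  have hcn : 0 < ‖c‖ := norm_pos_iff.2 hc
  obtain ⟨w, hw⟩ : ∃ w : E3 → ℂ, w = fun x => 1 - c⁻¹ * u x := ⟨_, rfl⟩
  have hwc : ContDiff ℝ 1 w := by
    rw [hw]
    exact contDiff_const.sub (contDiff_const.mul hu)
  obtain ⟨φ, hφ⟩ : ∃ φ : E3 → ℂ, φ = fun x => χ x • w x := ⟨_, rfl⟩
  have hφc : ContDiff ℝ 1 φ := by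
    rw [hφ]
    exact hχ.smul hwc
  have hφs : HasCompactSupport φ := by
    refine HasCompactSupport.intro (isCompact_closedBall (0 : E3) (2 * ρ)) ?_
    intro x hx
    rw [mem_closedBall, dist_zero_right, not_le] at hx
    rw [hφ]
    simp only
    rw [hχ0 x hx.le, zero_smul]
  have hB1 := hB W hW φ hφc hφs
  -- the derivative
  have hder : ∀ x v, c * fderiv ℝ φ x v =
      -(χ x • fderiv ℝ u x v) + (fderiv ℝ χ x v) • (c - u x) := by
    intro x v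
    have h1 : HasFDerivAt u (fderiv ℝ u x) x := (hu.differentiable one_ne_zero x).hasFDerivAt
    have h2 : HasFDerivAt χ (fderiv ℝ χ x) x := (hχ.differentiable one_ne_zero x).hasFDerivAt
    have h3 : HasFDerivAt w (-(c⁻¹ • fderiv ℝ u x)) x := by
      rw [hw]
      exact (h1.const_mul c⁻¹).const_sub 1
    have h4 := h2.smul h3
    have h5 : fderiv ℝ φ x = χ x • -(c⁻¹ • fderiv ℝ u x) + (fderiv ℝ χ x).smulRight (w x) := by
      rw [hφ]
      exact h4.fderiv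
    rw [h5]
    simp only [add_apply, smul_apply, neg_apply, ContinuousLinearMap.smulRight_apply, smul_eq_mul,
      Complex.real_smul]
    rw [hw]
    field_simp
  -- the pointwise bound
  have hpt : ∀ x, ‖c‖ ^ 2 * (2 * g3 φ x + W x * ‖1 - φ x‖ ^ 2) ≤
      (ball (0 : E3) R).indicator (fun x => (1 + t) * (2 * g3 u x + W x * ‖u x‖ ^ 2)) x +
      (ball (0 : E3) (2 * ρ) \ ball 0 ρ).indicator
        (fun x => (2 * (1 + 1 / t) * C) * (‖u x - c‖ ^ 2 / ‖x‖ ^ 2)) x := by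
    intro x
    have e1 : ‖c‖ ^ 2 * g3 φ x ≤ (1 + t) * (χ x ^ 2 * g3 u x) +
        (1 + 1 / t) * ((∑ j : Fin 3, (fderiv ℝ χ x (eb j)) ^ 2) * ‖u x - c‖ ^ 2) := by
      unfold g3
      rw [Finset.mul_sum, Finset.mul_sum, Finset.mul_sum, Finset.sum_mul, Finset.mul_sum,
        ← Finset.sum_add_distrib]
      apply Finset.sum_le_sum
      intro j _
      have e2 : ‖c‖ ^ 2 * ‖fderiv ℝ φ x (EuclideanSpace.single j 1)‖ ^ 2 =
          ‖c * fderiv ℝ φ x (eb j)‖ ^ 2 := by rw [norm_mul, mul_pow]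
      rw [e2, hder]
      refine (norm_add_sq_le _ _ ht).trans (le_of_eq ?_)
      rw [norm_neg, norm_smul, norm_smul, Real.norm_eq_abs, Real.norm_eq_abs, mul_pow, mul_pow,
        sq_abs, sq_abs, norm_sub_rev]
    have e3 : ‖c‖ ^ 2 * (W x * ‖1 - φ x‖ ^ 2) = W x * ‖u x‖ ^ 2 := by
      by_cases hx : R0 ≤ ‖x‖
      · rw [hWs x hx, zero_mul, zero_mul, mul_zero]
      · have h1 : χ x = 1 := hχ1 x ((not_le.1 hx).le.trans hρ)
        have h2 : ‖1 - φ x‖ = ‖c‖⁻¹ * ‖u x‖ := by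
          rw [hφ, hw]
          simp only
          rw [h1, one_smul, sub_sub_cancel, norm_mul, norm_inv]
        rw [h2]
        field_simp
    have e4 : (∑ j : Fin 3, (fderiv ℝ χ x (eb j)) ^ 2) * ‖u x - c‖ ^ 2 ≤
        (ball (0 : E3) (2 * ρ) \ ball 0 ρ).indicator (fun x => C * (‖u x - c‖ ^ 2 / ‖x‖ ^ 2)) x := by
      refine (mul_le_mul_of_nonneg_right (hχd x) (by positivity)).trans (le_of_eq ?_)
      by_cases hx : x ∈ ball (0 : E3) (2 * ρ) \ ball 0 ρ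
      · rw [indicator_of_mem hx, indicator_of_mem hx]
        ring
      · rw [indicator_of_notMem hx, indicator_of_notMem hx, zero_mul]
    have e5 : (ball (0 : E3) (2 * ρ) \ ball 0 ρ).indicator
        (fun x => (2 * (1 + 1 / t) * C) * (‖u x - c‖ ^ 2 / ‖x‖ ^ 2)) x =
        2 * (1 + 1 / t) * (ball (0 : E3) (2 * ρ) \ ball 0 ρ).indicator
          (fun x => C * (‖u x - c‖ ^ 2 / ‖x‖ ^ 2)) x := by
      by_cases hx : x ∈ ball (0 : E3) (2 * ρ) \ ball 0 ρ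
      · rw [indicator_of_mem hx, indicator_of_mem hx]
        ring
      · rw [indicator_of_notMem hx, indicator_of_notMem hx, mul_zero]
    rw [e5]
    have hg := g3_nonneg u x
    have hWn : 0 ≤ W x * ‖u x‖ ^ 2 := mul_nonneg (hW.nonneg x) (by positivity)
    have ht1 : 0 ≤ 1 + 1 / t := by positivity
    have e6 := mul_le_mul_of_nonneg_left e4 ht1
    by_cases hx : x ∈ ball (0 : E3) R
    · rw [indicator_of_mem hx]
      have h1 : χ x ^ 2 * g3 u x ≤ g3 u x := by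
        have h2 : χ x ^ 2 ≤ 1 := pow_le_one₀ (hχ01 x).1 (hχ01 x).2
        nlinarith
      have h3 : (1 + t) * (χ x ^ 2 * g3 u x) ≤ (1 + t) * g3 u x :=
        mul_le_mul_of_nonneg_left h1 (by linarith)
      nlinarith
    · rw [indicator_of_notMem hx, zero_add]
      rw [mem_ball, dist_zero_right, not_lt] at hx
      have hx2 : 2 * ρ ≤ ‖x‖ := hR.trans hx
      rw [hχ0 x hx2] at e1
      have h1 : W x = 0 := hWs x (by linarith)
      rw [h1, zero_mul] at e3 ⊢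
      nlinarith
  -- integration
  have hint1 : IntegrableOn (fun x => (1 + t) * (2 * g3 u x + W x * ‖u x‖ ^ 2)) (ball (0 : E3) R) := by
    refine Integrable.const_mul (Integrable.add ?_ ?_) _
    · exact intOn_ball (continuous_const.mul (cont_g3 hu)) R
    · exact intOn_W hW (by have := hu.continuous; fun_prop) R
  have hmA : MeasurableSet (ball (0 : E3) (2 * ρ) \ ball 0 ρ) :=
    measurableSet_ball.diff measurableSet_ball
  have hint2 : IntegrableOn (fun x => (2 * (1 + 1 / t) * C) * (‖u x - c‖ ^ 2 / ‖x‖ ^ 2))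
      (ball (0 : E3) (2 * ρ) \ ball 0 ρ) :=
    ((intOn_F hI hu.continuous c (2 * ρ)).mono_set sdiff_subset).const_mul _
  have hint1' := (integrable_indicator_iff measurableSet_ball).2 hint1
  have hint2' := (integrable_indicator_iff hmA).2 hint2
  have hfin : ‖c‖ ^ 2 * ∫ x, (2 * g3 φ x + W x * ‖1 - φ x‖ ^ 2) ≤
      (∫ x in ball (0 : E3) R, (1 + t) * (2 * g3 u x + W x * ‖u x‖ ^ 2)) +
      ∫ x in ball (0 : E3) (2 * ρ) \ ball 0 ρ,
        (2 * (1 + 1 / t) * C) * (‖u x - c‖ ^ 2 / ‖x‖ ^ 2) := by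
    rw [← integral_const_mul, ← integral_indicator measurableSet_ball, ← integral_indicator hmA,
      ← integral_add hint1' hint2']
    refine integral_mono_of_nonneg ?_ (hint1'.add hint2') (Filter.Eventually.of_forall hpt)
    refine Filter.Eventually.of_forall fun x => ?_
    have h1 := g3_nonneg φ x
    have h2 : 0 ≤ W x * ‖1 - φ x‖ ^ 2 := mul_nonneg (hW.nonneg x) (by positivity)
    have h3 : 0 ≤ ‖c‖ ^ 2 := by positivity
    simp only [Pi.zero_apply]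
    positivity
  rw [integral_const_mul, integral_const_mul] at hfin
  have h1 : b1 W * ‖c‖ ^ 2 ≤ ‖c‖ ^ 2 * ∫ x, (2 * g3 φ x + W x * ‖1 - φ x‖ ^ 2) := by
    rw [mul_comm]
    exact mul_le_mul_of_nonneg_left hB1 (by positivity)
  exact h1.trans hfin

/-- sum of the shells -/
theorem shells {F : E3 → ℝ} (hF : ∀ R, IntegrableOn F (ball (0 : E3) R)) (hF0 : ∀ x, 0 ≤ F x)
    {R0 : ℝ} (hR0 : 0 < R0) (L : ℕ) :
    ∑ k ∈ Finset.range L, ∫ x in ball (0 : E3) (2 * (2 ^ k * R0)) \ ball 0 (2 ^ k * R0), F x ≤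
      ∫ x in ball (0 : E3) (2 ^ L * R0), F x := by
  induction L with
  | zero =>
    simp only [Finset.range_zero, Finset.sum_empty]
    exact integral_nonneg hF0
  | succ L ih =>
    rw [Finset.sum_range_succ]
    have e1 : (2 : ℝ) * (2 ^ L * R0) = 2 ^ (L + 1) * R0 := by ring
    have hsub : ball (0 : E3) (2 ^ L * R0) ⊆ ball (0 : E3) (2 ^ (L + 1) * R0) := by
      apply ball_subset_ball
      rw [← e1]
      have : 0 < 2 ^ L * R0 := by positivity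
      linarith
    rw [e1, setIntegral_sdiff measurableSet_ball (hF _) hsub]
    linarith

/-- the case `s = 1` -/
theorem dy1 (hB : S_B1C) (hI : S_INV) (W : E3 → ℝ) (hW : AdmW W) (δ : ℝ) (hδ : 0 < δ)
    (hδ1 : δ < 1) : ∃ R : ℝ, 0 < R ∧ ∀ u : E3 → ℂ, ContDiff ℝ 1 u → ∀ c : ℂ,
    (1 - δ) * b1 W * ‖c‖ ^ 2 ≤ (∫ x in ball (0 : E3) R, (2 * g3 u x + W x * ‖u x‖ ^ 2))
      + δ * ∫ x in ball (0 : E3) R, ‖u x - c‖ ^ 2 / ‖x‖ ^ 2 := by
  obtain ⟨R0, hR0, hWs⟩ := hW.supp.exists_pos_le_norm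
  obtain ⟨C, hC, hcut⟩ := exists_cut
  obtain ⟨K, hK⟩ : ∃ K, K = 2 * (1 + 1 / δ) * C := ⟨_, rfl⟩
  have hK0 : 0 ≤ K := by rw [hK]; positivity
  obtain ⟨L, hL⟩ := exists_nat_gt (K / δ)
  have hLpos : (0 : ℝ) < L := lt_of_le_of_lt (by positivity) hL
  have hKL : K ≤ δ * L := by
    rw [div_lt_iff₀ hδ] at hL
    linarith
  refine ⟨2 ^ L * R0, by positivity, fun u hu c => ?_⟩
  obtain ⟨I, hIdef⟩ : ∃ I, I = ∫ x in ball (0 : E3) (2 ^ L * R0), (2 * g3 u x + W x * ‖u x‖ ^ 2) :=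
    ⟨_, rfl⟩
  obtain ⟨J, hJdef⟩ : ∃ J, J = ∫ x in ball (0 : E3) (2 ^ L * R0), ‖u x - c‖ ^ 2 / ‖x‖ ^ 2 :=
    ⟨_, rfl⟩
  have hI0 : 0 ≤ I := by
    rw [hIdef]
    refine integral_nonneg fun x => ?_
    have h1 := g3_nonneg u x
    have h2 : 0 ≤ W x * ‖u x‖ ^ 2 := mul_nonneg (hW.nonneg x) (by positivity)
    simp only [Pi.zero_apply]
    positivity
  have hJ0 : 0 ≤ J := by
    rw [hJdef]
    exact integral_nonneg fun x => by simp only [Pi.zero_apply]; positivity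
  rw [← hIdef, ← hJdef]
  by_cases hc : c = 0
  · rw [hc, norm_zero]
    have : (0 : ℝ) ≤ δ * J := by positivity
    simp only [ne_eq, OfNat.ofNat_ne_zero, not_false_eq_true, zero_pow, mul_zero]
    linarith
  -- sum over the scales
  have hk : ∀ k ∈ Finset.range L, b1 W * ‖c‖ ^ 2 ≤ (1 + δ) * I + K *
      ∫ x in ball (0 : E3) (2 * (2 ^ k * R0)) \ ball 0 (2 ^ k * R0), ‖u x - c‖ ^ 2 / ‖x‖ ^ 2 := by
    intro k hk
    rw [Finset.mem_range] at hk
    have hρ : 0 < 2 ^ k * R0 := by positivity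
    obtain ⟨χ, h1, h2, h3, h4, h5⟩ := hcut (2 ^ k * R0) hρ
    have h6 : R0 ≤ 2 ^ k * R0 := by
      have : (1 : ℝ) ≤ 2 ^ k := one_le_pow₀ (by norm_num)
      nlinarith
    have h7 : 2 * (2 ^ k * R0) ≤ 2 ^ L * R0 := by
      have : (2 : ℝ) ^ (k + 1) ≤ 2 ^ L := pow_le_pow_right₀ (by norm_num) hk
      calc 2 * (2 ^ k * R0) = 2 ^ (k + 1) * R0 := by ring
        _ ≤ 2 ^ L * R0 := by gcongr
    rw [hK, hIdef]
    exact scale hB hI hW hR0 hWs hδ h6 h7 h1 h2 h3 h4 h5 hu hc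
  have hsum := Finset.sum_le_sum hk
  rw [Finset.sum_const, Finset.card_range, Finset.sum_add_distrib, Finset.sum_const,
    Finset.card_range, ← Finset.mul_sum, nsmul_eq_mul, nsmul_eq_mul] at hsum
  have hsh := shells (F := fun x => ‖u x - c‖ ^ 2 / ‖x‖ ^ 2)
    (fun R => intOn_F hI hu.continuous c R) (fun x => by positivity) hR0 L
  rw [← hJdef] at hsh
  have h1 : (L : ℝ) * (b1 W * ‖c‖ ^ 2) ≤ L * ((1 + δ) * I) + K * J :=
    hsum.trans (by gcongr)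
  have h2 : K * J ≤ δ * L * J := mul_le_mul_of_nonneg_right hKL hJ0
  have h3 : b1 W * ‖c‖ ^ 2 ≤ (1 + δ) * I + δ * J := by
    have h4 : (L : ℝ) * (b1 W * ‖c‖ ^ 2) ≤ L * ((1 + δ) * I + δ * J) := by
      calc (L : ℝ) * (b1 W * ‖c‖ ^ 2) ≤ L * ((1 + δ) * I) + δ * L * J := by linarith
        _ = _ := by ring
    exact le_of_mul_le_mul_left h4 hLpos
  have h5 : (1 - δ) * (b1 W * ‖c‖ ^ 2) ≤ (1 - δ) * ((1 + δ) * I + δ * J) :=
    mul_le_mul_of_nonneg_left h3 (by linarith)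
  have h6 : (1 - δ) * ((1 + δ) * I + δ * J) = I + δ * J - δ ^ 2 * (I + J) := by ring
  have h7 : 0 ≤ δ ^ 2 * (I + J) := by positivity
  calc (1 - δ) * b1 W * ‖c‖ ^ 2 = (1 - δ) * (b1 W * ‖c‖ ^ 2) := by ring
    _ ≤ _ := by linarith

theorem dy : S_B1C → S_INV → S_DY := by
  intro hB hI W hW δ hδ hδ1
  obtain ⟨R, hR, h⟩ := dy1 hB hI W hW δ hδ hδ1
  refine ⟨R, hR, fun s hs u hu c => ?_⟩
  obtain ⟨v, hv⟩ : ∃ v : E3 → ℂ, v = fun y => u (s⁻¹ • y) := ⟨_, rfl⟩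
  have hvc : ContDiff ℝ 1 v := by
    rw [hv]
    exact hu.comp (contDiff_const_smul _)
  have h1 := h v hvc c
  have hvs : ∀ x, v (s • x) = u x := by
    intro x
    rw [hv]
    simp only
    rw [smul_smul, inv_mul_cancel₀ hs.ne', one_smul]
  -- scaling of the gradient
  have hg : ∀ x, g3 v (s • x) = (s ^ 2)⁻¹ * g3 u x := by
    intro x
    unfold g3
    rw [Finset.mul_sum]
    apply Finset.sum_congr rfl
    intro j _
    have h2 : HasFDerivAt (fun y : E3 => s⁻¹ • y) (s⁻¹ • ContinuousLinearMap.id ℝ E3) (s • x) :=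
      (s⁻¹ • ContinuousLinearMap.id ℝ E3).hasFDerivAt
    have h3 : HasFDerivAt u (fderiv ℝ u (s⁻¹ • s • x)) (s⁻¹ • s • x) :=
      (hu.differentiable one_ne_zero _).hasFDerivAt
    have h4 := h3.comp (s • x) h2
    have h5 : fderiv ℝ v (s • x) =
        (fderiv ℝ u (s⁻¹ • s • x)).comp (s⁻¹ • ContinuousLinearMap.id ℝ E3) := by
      rw [hv]
      exact h4.fderiv
    rw [h5, smul_smul, inv_mul_cancel₀ hs.ne', one_smul]
    simp only [ContinuousLinearMap.comp_apply, smul_apply, ContinuousLinearMap.id_apply, map_smul,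
      norm_smul, norm_inv, Real.norm_of_nonneg hs.le, mul_pow, inv_pow]
  have hball : s • ball (0 : E3) (R / s) = ball (0 : E3) R := by
    rw [_root_.smul_ball hs.ne', smul_zero, Real.norm_of_nonneg hs.le, mul_div_cancel₀ _ hs.ne']
  have hint : ∀ f : E3 → ℝ, ∫ x in ball (0 : E3) R, f x =
      s ^ 3 * ∫ x in ball (0 : E3) (R / s), f (s • x) := by
    intro f
    rw [Measure.setIntegral_comp_smul_of_pos volume f _ hs, hball, finrank_euclideanSpace_fin,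
      smul_eq_mul, ← mul_assoc, mul_inv_cancel₀ (by positivity), one_mul]
  rw [hint, hint] at h1
  have e1 : ∀ x, 2 * g3 v (s • x) + W (s • x) * ‖v (s • x)‖ ^ 2 =
      (s ^ 2)⁻¹ * (2 * g3 u x + s ^ 2 * W (s • x) * ‖u x‖ ^ 2) := by
    intro x
    rw [hg, hvs]
    field_simp
  have e2 : ∀ x : E3, ‖v (s • x) - c‖ ^ 2 / ‖s • x‖ ^ 2 =
      (s ^ 2)⁻¹ * (‖u x - c‖ ^ 2 / ‖x‖ ^ 2) := by
    intro x
    rw [hvs, norm_smul, Real.norm_of_nonneg hs.le, mul_pow, div_mul_eq_div_div, div_eq_mul_inv,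
      div_eq_mul_inv, div_eq_mul_inv]
    ring
  simp only [e1, e2] at h1
  rw [integral_const_mul, integral_const_mul] at h1
  have h2 : s ^ 3 * (s ^ 2)⁻¹ = s := by field_simp
  rw [← mul_assoc (s ^ 3), ← mul_assoc (s ^ 3), h2] at h1
  have e3 : (1 - δ) * (b1 W / s) * ‖c‖ ^ 2 = ((1 - δ) * b1 W * ‖c‖ ^ 2) / s := by ring
  rw [e3, div_le_iff₀ hs]
  linarith

end Pool.Agent.W179.TWB
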